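import Pool.Agent.T2H27.ST.Blocks

/-!
# The block for the associated primes: sums, degrees, quotients by squares
-/

set_option autoImplicit false

namespace Pool.Agent.T2H27.ST

open MvPolynomial Finset
open scoped Pointwise

theorem MA_zero (a : ℕ) : MA a 0 = {0} := by
  sorry

theorem MA_succ (a k : ℕ) : MA a (k + 1) = MA a k + MA a 1 := by
  sorry

theorem MA_deg (a k : ℕ) : ∀ u ∈ MA a k, ∑ s, u s = 2 * (a + 1) * k := by
  sorry

theorem MA_nonempty (a k : ℕ) : (MA a k).Nonempty := by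
  sorry

/-- the exchange property -/
theorem NA_exchange (a k : ℕ) (v v' : Fin (a + 2) → ℕ) (hv : v ∈ NA a k) (hv' : v' ∈ NA a k)
    (h : Bef v' v) : ∃ j i, j < i ∧ v j < v' j ∧ v' i < v i ∧
      (fun s => v s + (if s = j then 1 else 0) - (if s = i then 1 else 0)) ∈ NA a k := by
  sorry

theorem MA_ppq (a k : ℕ) : ∃ G : (Fin (a + 2) → ℕ) → Finset (Fin (a + 2)),
    PPQ (MA a k) G (fun _ _ => 2) ∧ ∀ u ∈ MA a k, (G u).card ≤ a + 1 := by
  sorry

end Pool.Agent.T2H27.ST
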