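import Pool.Agent.T2H27.ST.Blocks

/-!
# The block for the associated primes: cycles and associated primes
-/

set_option autoImplicit false

namespace Pool.Agent.T2H27.ST

open MvPolynomial Finset
open scoped Pointwise

theorem up_MA (a k : ℕ) (β : Fin (a + 2) → ℕ) : β ∈ up (MA a k) ↔
    (a + 1) * k ≤ ∑ s, β s / 2 ∧ ∑ s : Fin (a + 1), (k - β s.castSucc / 2) ≤ k := by
  sorry

theorem MA_cert (K : Type) [Field K] (a k : ℕ) (hk : 1 ≤ k) :
    ∃ α, Cert K (up (MA a k)) α (a + 1) ∧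
      ∑ s, α s = (2 * (a + 1) * k + (a + 1)) + (a + 1) := by
  sorry

theorem MA_ass (a k : ℕ) (hk : 1 ≤ k) (F : Finset (Fin (a + 2))) :
    AssF (up (MA a k)) F ↔ F ∈ AA a k := by
  sorry

theorem MA_np (a k : ℕ) (hk : 1 ≤ k) : NP (up (MA a k)) (2 * (a + 1) * k) := by
  sorry

end Pool.Agent.T2H27.ST
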