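import Pool.Agent.T2H27.ST.Comb

/-!
# Associated primes of monomial ideals
-/

set_option autoImplicit false

namespace Pool.Agent.T2H27.ST

open MvPolynomial Finset
open scoped Pointwise

/-- If `g f ∈ J` for a monomial ideal `J`, and `n` is the leading monomial of `g`, then a power of `x^n`
multiplies `f` into `J`. -/
theorem lead_pow {σ K : Type} [Field K] [Fintype σ] [LinearOrder σ] (M : Set (σ → ℕ))
    (g : MvPolynomial σ K) (hg : g ≠ 0) :
    ∃ n ∈ g.support, ∀ f, g * f ∈ monI K M → ∃ N, (monomial n (1 : K)) ^ N * f ∈ monI K M := by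
  sorry

theorem span_X_inj {σ K : Type} [Field K] (F F' : Finset σ)
    (h : Ideal.span ((X : σ → MvPolynomial σ K) '' (F : Set σ)) =
      Ideal.span ((X : σ → MvPolynomial σ K) '' (F' : Set σ))) : F = F' := by
  sorry

theorem span_X_prime {σ K : Type} [Field K] (F : Finset σ) :
    (Ideal.span ((X : σ → MvPolynomial σ K) '' (F : Set σ))).IsPrime := by
  sorry

theorem ass_monI {σ K : Type} [Field K] [Fintype σ] [LinearOrder σ] (M : Set (σ → ℕ)) :
    Ass (monI K M) = {P | ∃ F : Finset σ, AssF (up M) F ∧
      P = Ideal.span ((X : σ → MvPolynomial σ K) '' (F : Set σ))} := by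
  sorry

end Pool.Agent.T2H27.ST
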