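import Pool.Agent.T2H27.ST.Blocks

/-!
# The block for the depth: sums, degrees, quotients by variables
-/

set_option autoImplicit false

namespace Pool.Agent.T2H27.ST

open MvPolynomial Finset
open scoped Pointwise

theorem MD_zero (d : ℕ) : MD d 0 = {0} := by
  sorry

theorem MD_succ (d k : ℕ) : MD d (k + 1) = MD d k + MD d 1 := by
  sorry

theorem MD_deg (d k : ℕ) : ∀ u ∈ MD d k, d * k ≤ ∑ s, u s ∧ ∑ s, u s ≤ 2 * d * k := by
  sorry

theorem MD_att (d k : ℕ) : ∃ u ∈ MD d k, ∑ s, u s = d * k := by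
  sorry

/-- the variables are `a_t` with `c_t > c_{t-1}`; the exponents are `1` -/
theorem MD_ppq (d k : ℕ) : ∃ G : (Fin d ×ₗ Bool → ℕ) → Finset (Fin d ×ₗ Bool),
    PPQ (MD d k) G (fun _ _ => 1) ∧ ∀ u ∈ MD d k, (G u).card ≤ min k d := by
  sorry

end Pool.Agent.T2H27.ST
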