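import Pool.Agent.T2H27.ST.Blocks

/-!
# The block for the depth: cycles, associated primes
-/

set_option autoImplicit false

namespace Pool.Agent.T2H27.ST

open MvPolynomial Finset
open scoped Pointwise

theorem up_MD (d k : ℕ) (β : Fin d ×ₗ Bool → ℕ) : β ∈ up (MD d k) ↔
    ∀ i j : Fin d, i ≤ j → k ≤ β (toLex (i, false)) + β (toLex (j, true)) / 2 := by
  sorry

theorem MD_cpd (K : Type) [Field K] (d k : ℕ) : ∃ α, Cert K (up (MD d k)) α (min k d) := by
  sorry

theorem MD_creg (K : Type) [Field K] (d k : ℕ) :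
    ∃ α, Cert K (up (MD d k)) α 0 ∧ ∑ s, α s = 2 * d * k := by
  sorry

theorem MD_ass (d k : ℕ) (hk : 1 ≤ k) (F : Finset (Fin d ×ₗ Bool)) :
    AssF (up (MD d k)) F ↔ F ∈ AD d := by
  sorry

theorem MD_np (d k : ℕ) (hd : 1 ≤ d) (hk : 1 ≤ k) : NP (up (MD d k)) (d * k) := by
  sorry

end Pool.Agent.T2H27.ST
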