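import Pool.Agent.T2H27.ST.Comb

/-!
# The Koszul homology of an ideal with quotients by powers of variables
-/

set_option autoImplicit false

namespace Pool.Agent.T2H27.ST

open MvPolynomial Finset
open scoped Pointwise

/-- The boundary of a boundary is zero. -/
theorem bd_bd {σ K : Type} [Field K] [Fintype σ] [LinearOrder σ] (b : Finset σ → K)
    (G : Finset σ) : bd (bd b) G = 0 := by
  sorry

/-- If the multidegree `α` is not `u + ∑_{t ∈ F} p_t ε_t` for some generator `u` and some `i`-subset
`F` of `G u`, then the cycles of size `i` in the multidegree `α` are boundaries. -/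
theorem exact_of_ppq {σ K : Type} [Field K] [Fintype σ] [LinearOrder σ] (M : Set (σ → ℕ))
    (G : (σ → ℕ) → Finset σ) (p : (σ → ℕ) → σ → ℕ) (h : PPQ M G p) (α : σ → ℕ) (i : ℕ)
    (hcrit : ∀ u ∈ M, ∀ F : Finset σ, F ⊆ G u → F.card = i →
      α ≠ fun s => u s + if s ∈ F then p u s else 0)
    (c : Finset σ → K) (hc : ∀ F, c F ≠ 0 → F.card = i ∧ Face (up M) α F)
    (hz : ∀ G', bd c G' = 0) :
    ∃ b : Finset σ → K, (∀ F, b F ≠ 0 → F.card = i + 1 ∧ Face (up M) α F) ∧
      ∀ G', bd b G' = c G' := by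
  sorry

end Pool.Agent.T2H27.ST
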