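import Pool.Agent.T2H27.ST.Blocks

/-!
# Exponents of the block for the regularity
-/

set_option autoImplicit false

namespace Pool.Agent.T2H27.ST

open MvPolynomial Finset
open scoped Pointwise

theorem ER_zero (r : ℕ) : ER r 0 = {0} := by
  sorry

theorem ER_succ (r k : ℕ) : ER r (k + 1) = ER r k + ER r 1 := by
  sorry

theorem ER_mem (r k : ℕ) : 0 ∈ ER r k ∧ 2 * (r + 2) * k ∈ ER r k := by
  sorry

theorem ER_le (r k : ℕ) : ∀ j ∈ ER r k, j ≤ 2 * (r + 2) * k := by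
  sorry

theorem ER_gap (r k : ℕ) (hk : 1 ≤ k) : ∀ j ∈ ER r k, 0 < j →
    ∃ j' ∈ ER r k, j' < j ∧ j ≤ j' + 2 * max 1 (r + 1 - k) := by
  sorry

theorem ER_att (r k : ℕ) (hk : 1 ≤ k) :
    ∃ j ∈ ER r k, j + 2 * max 1 (r + 1 - k) ∈ ER r k ∧
      ∀ x ∈ ER r k, x ≤ j ∨ j + 2 * max 1 (r + 1 - k) ≤ x := by
  sorry

theorem ER_even (r k : ℕ) : ∀ j, j ∈ ER r k → j + 1 ∉ ER r k := by
  sorry

end Pool.Agent.T2H27.ST
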