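import Pool.Agent.T2H27.ST.Blocks

/-!
# Exponents of the block for the v-number
-/

set_option autoImplicit false

namespace Pool.Agent.T2H27.ST

open MvPolynomial Finset
open scoped Pointwise

theorem EV_zero (v : ℕ) : EV v 0 = {0} := by
  sorry

theorem EV_succ (v k : ℕ) : EV v (k + 1) = EV v k + EV v 1 := by
  sorry

theorem EV_mem (v k : ℕ) : 0 ∈ EV v k ∧ (3 * v - 1) * k ∈ EV v k := by
  sorry

theorem EV_le (v k : ℕ) (hv : 2 ≤ v) : ∀ j ∈ EV v k, j ≤ (3 * v - 1) * k := by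
  sorry

theorem EV_gap (v k : ℕ) (hv : 2 ≤ v) (hk : 1 ≤ k) : ∀ j ∈ EV v k, 0 < j →
    ∃ j' ∈ EV v k, j' < j ∧ j ≤ j' + max 3 (3 * v - 4) := by
  sorry

theorem EV_att (v k : ℕ) (hv : 2 ≤ v) (hk : 1 ≤ k) :
    ∃ j ∈ EV v k, j + max 3 (3 * v - 4) ∈ EV v k ∧
      ∀ x ∈ EV v k, x ≤ j ∨ j + max 3 (3 * v - 4) ≤ x := by
  sorry

theorem EV_consecutive (v k : ℕ) (hv : 2 ≤ v) (hk : v ≤ k) :
    3 * v - 1 ∈ EV v k ∧ 3 * v - 1 + 1 ∈ EV v k := by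
  sorry

theorem EV_not_consecutive (v k : ℕ) (hv : 2 ≤ v) (hk : k < v) : ∀ j, j ∈ EV v k →
    j + 1 ∉ EV v k := by
  sorry

end Pool.Agent.T2H27.ST
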