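import Pool.Agent.T2H27.ST.Comb

/-!
# Products and powers of monomial ideals
-/

set_option autoImplicit false

namespace Pool.Agent.T2H27.ST

open MvPolynomial Finset
open scoped Pointwise

theorem monI_pow {σ K : Type} [Field K] [Finite σ] (M : ℕ → Set (σ → ℕ)) (h0 : M 0 = {0})
    (h : ∀ k, M (k + 1) = M k + M 1) (k : ℕ) : monI K (M 1) ^ k = monI K (M k) := by
  sorry

theorem monI_hom {σ K : Type} [Field K] [Finite σ] (M : Set (σ → ℕ)) (f : MvPolynomial σ K)
    (hf : f ∈ monI K M) (m : ℕ) : homogeneousComponent m f ∈ monI K M := by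
  sorry

theorem init_monI {σ K : Type} [Field K] [Fintype σ] [LinearOrder σ] (M : Set (σ → ℕ)) (D : ℕ)
    (h1 : ∀ u ∈ M, D ≤ ∑ s, u s) (h2 : ∃ u ∈ M, ∑ s, u s = D) : HasInit (monI K M) D := by
  sorry

end Pool.Agent.T2H27.ST
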