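import Pool.Agent.T2H27.ST.Comb

/-!
# Products: associated primes and v-numbers
-/

set_option autoImplicit false

namespace Pool.Agent.T2H27.ST

open MvPolynomial Finset
open scoped Pointwise

theorem assF_prod {σ τ : Type} [Fintype σ] [LinearOrder σ] [Fintype τ] [LinearOrder τ]
    (M : Set (σ → ℕ)) (N : Set (τ → ℕ)) (hM : M.Nonempty) (hN : N.Nonempty)
    (A : Set (Finset σ)) (B : Set (Finset τ)) (hA : ∀ F, AssF (up M) F ↔ F ∈ A)
    (hB : ∀ F, AssF (up N) F ↔ F ∈ B) (F : Finset (σ ⊕ₗ τ)) :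
    AssF (prodM (up M) (up N)) F ↔ F ∈ prodA A B := by
  sorry

theorem np_prod {σ τ : Type} [Fintype σ] [LinearOrder σ] [Fintype τ] [LinearOrder τ]
    (M : Set (σ → ℕ)) (N : Set (τ → ℕ)) (D D' : ℕ) (hM : M.Nonempty) (hN : N.Nonempty)
    (h1 : ∀ u ∈ M, D ≤ ∑ s, u s) (h2 : ∀ u ∈ N, D' ≤ ∑ s, u s)
    (h : NP (up M) D) (h' : NP (up N) D') : NP (prodM (up M) (up N)) (D + D') := by
  sorry

theorem yp_prod_right {σ τ : Type} [Fintype σ] [LinearOrder σ] [Fintype τ] [LinearOrder τ]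
    (M : Set (σ → ℕ)) (N : Set (τ → ℕ)) (D D' : ℕ) (hM : ∃ u ∈ M, ∑ s, u s = D)
    (h' : YP (up N) D') : YP (prodM (up M) (up N)) (D + D') := by
  sorry

end Pool.Agent.T2H27.ST
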