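import Pool.Agent.T2H27.ST.Comb

/-!
# Products: cycles of top dimension
-/

set_option autoImplicit false

namespace Pool.Agent.T2H27.ST

open MvPolynomial Finset
open scoped Pointwise

theorem cert_prod {σ τ K : Type} [Field K] [Fintype σ] [LinearOrder σ] [Fintype τ]
    [LinearOrder τ] (U : Set (σ → ℕ)) (V : Set (τ → ℕ)) (α : σ → ℕ) (β : τ → ℕ) (i j : ℕ)
    (h : Cert K U α i) (h' : Cert K V β j) :
    ∃ γ : σ ⊕ₗ τ → ℕ, fstP γ = α ∧ sndP γ = β ∧ Cert K (prodM U V) γ (i + j) := by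
  sorry

end Pool.Agent.T2H27.ST
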