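import Pool.Agent.T2H27.ST.Comb

/-!
# Products: quotients by powers of variables, sums, degrees
-/

set_option autoImplicit false

namespace Pool.Agent.T2H27.ST

open MvPolynomial Finset
open scoped Pointwise

theorem up_prod {σ τ : Type} (M : Set (σ → ℕ)) (N : Set (τ → ℕ)) :
    up (prodM M N) = prodM (up M) (up N) := by
  sorry

theorem prodM_add {σ τ : Type} (M M' : Set (σ → ℕ)) (N N' : Set (τ → ℕ)) :
    prodM (M + M') (N + N') = prodM M N + prodM M' N' := by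
  sorry

theorem prodM_zero {σ τ : Type} : prodM ({0} : Set (σ → ℕ)) ({0} : Set (τ → ℕ)) = {0} := by
  sorry

theorem prodM_sum {σ τ : Type} [Fintype σ] [Fintype τ] (u : σ ⊕ₗ τ → ℕ) :
    ∑ s, u s = ∑ s, fstP u s + ∑ t, sndP u t := by
  sorry

theorem ppq_prod {σ τ : Type} [Fintype σ] [LinearOrder σ] [Fintype τ] [LinearOrder τ]
    (M : Set (σ → ℕ)) (N : Set (τ → ℕ)) (G : (σ → ℕ) → Finset σ) (p : (σ → ℕ) → σ → ℕ)
    (G' : (τ → ℕ) → Finset τ) (p' : (τ → ℕ) → τ → ℕ) (h : PPQ M G p) (h' : PPQ N G' p')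
    (P R P' R' : ℕ) (hM : ∀ u ∈ M, (G u).card ≤ P ∧ ∑ s, u s + ∑ t ∈ G u, (p u t - 1) ≤ R)
    (hN : ∀ u ∈ N, (G' u).card ≤ P' ∧ ∑ s, u s + ∑ t ∈ G' u, (p' u t - 1) ≤ R') :
    ∃ (H : (σ ⊕ₗ τ → ℕ) → Finset (σ ⊕ₗ τ)) (q : (σ ⊕ₗ τ → ℕ) → σ ⊕ₗ τ → ℕ),
      PPQ (prodM M N) H q ∧ ∀ u ∈ prodM M N, (H u).card ≤ P + P' ∧
        ∑ s, u s + ∑ t ∈ H u, (q u t - 1) ≤ R + R' := by
  sorry

end Pool.Agent.T2H27.ST
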