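import Pool.Agent.T2H27.ST.Comb

/-!
# Non-vanishing of Koszul homology from a cycle of top dimension
-/

set_option autoImplicit false

namespace Pool.Agent.T2H27.ST

open MvPolynomial Finset
open scoped Pointwise

theorem torNonzero_of_cert {σ K : Type} [Field K] [Fintype σ] [LinearOrder σ]
    (M : Set (σ → ℕ)) (α : σ → ℕ) (i m : ℕ) (h : Cert K (up M) α i) (hm : ∑ s, α s = m + i) :
    TorNonzero (monI K M) i m := by
  sorry

end Pool.Agent.T2H27.ST
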