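import Pool.Agent.T2H27.ST.Comb

/-!
# Vanishing of Koszul homology from the multigraded pieces
-/

set_option autoImplicit false

namespace Pool.Agent.T2H27.ST

open MvPolynomial Finset
open scoped Pointwise

theorem not_torNonzero {σ K : Type} [Field K] [Fintype σ] [LinearOrder σ] (M : Set (σ → ℕ))
    (i m : ℕ)
    (h : ∀ α : σ → ℕ, ∑ s, α s = m + i → ∀ c : Finset σ → K,
      (∀ F, c F ≠ 0 → F.card = i ∧ Face (up M) α F) → (∀ G, bd c G = 0) →
      ∃ b : Finset σ → K, (∀ F, b F ≠ 0 → F.card = i + 1 ∧ Face (up M) α F) ∧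
        ∀ G, bd b G = c G) :
    ¬ TorNonzero (monI K M) i m := by
  sorry

end Pool.Agent.T2H27.ST
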