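import Pool.Agent.T2H27.ST.Blocks

/-!
# Two variables
-/

set_option autoImplicit false

namespace Pool.Agent.T2H27.ST

open MvPolynomial Finset
open scoped Pointwise

/-- The block of the monomials `x ^ (g k - j) y ^ j`, `j ∈ E k`, with largest gap `gap k`. -/
theorem blk_two (K : Type) [Field K] (E : ℕ → Set ℕ) (g : ℕ) (gap : ℕ → ℕ) (hg : 1 ≤ g)
    (h0 : E 0 = {0}) (h1 : ∀ k, E (k + 1) = E k + E 1) (hz : ∀ k, 0 ∈ E k)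
    (hm : ∀ k, g * k ∈ E k) (hle : ∀ k, ∀ j ∈ E k, j ≤ g * k)
    (hgap : ∀ k, 1 ≤ k → ∀ j ∈ E k, 0 < j → ∃ j' ∈ E k, j' < j ∧ j ≤ j' + gap k)
    (hatt : ∀ k, 1 ≤ k → ∃ j ∈ E k, j + gap k ∈ E k ∧ ∀ x ∈ E k, x ≤ j ∨ j + gap k ≤ x)
    (hpos : ∀ k, 1 ≤ k → 1 ≤ gap k) :
    Blk K (M2 E g) g (fun _ => 1) (fun k => g * k + gap k - 1) (fun _ => {univ})
      (fun k => ∀ j, j ∈ E k → j + 1 ∉ E k) := by
  sorry

theorem yp_two (E : ℕ → Set ℕ) (g k j : ℕ) (hg : 1 ≤ g) (hk : 1 ≤ k)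
    (hle : ∀ j ∈ E k, j ≤ g * k) (hj : j ∈ E k) (hj1 : j + 1 ∈ E k) :
    YP (up (M2 E g k)) (g * k) := by
  sorry

end Pool.Agent.T2H27.ST
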