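import Pool.Agent.T2H27.ST.Comb

/-!
# The v-number of a monomial ideal
-/

set_option autoImplicit false

namespace Pool.Agent.T2H27.ST

open MvPolynomial Finset
open scoped Pointwise

theorem hasV_of_yp {σ K : Type} [Field K] [Fintype σ] [LinearOrder σ] (M : Set (σ → ℕ)) (w : ℕ)
    (hne : M.Nonempty) (h1 : ∀ u ∈ M, w + 1 ≤ ∑ s, u s) (h : YP (up M) (w + 1)) :
    HasV (monI K M) w := by
  sorry

theorem not_hasV_of_np {σ K : Type} [Field K] [Fintype σ] [LinearOrder σ] (M : Set (σ → ℕ))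
    (w : ℕ) (h1 : ∀ u ∈ M, w + 1 ≤ ∑ s, u s) (h : NP (up M) (w + 1)) :
    ¬ HasV (monI K M) w := by
  sorry

end Pool.Agent.T2H27.ST
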